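import Pool.Agent.H43.G.R_seed8.H343R2.EH.Defs
import Pool.Agent.H43.G.R_seed8.H343R2.EH.Parseval

open Finset

/-!
Interchange of the summations over moduli and conductors.
-/

namespace H343E

open Pool.Agent.H410R2 Pool.Agent.H398R2.BV

namespace InterC

theorem step3 (m : ℕ) [NeZero m] (T : Finset (DirichletCharacter ℂ m)) (J : Finset ℕ)
    (hJ : ∀ f ∈ J, f ∣ m) (hT : ∀ χ ∈ T, χ.conductor ∈ J)
    (w : DirichletCharacter ℂ m → ℝ) (hw : ∀ χ, 0 ≤ w χ)
    (W : (f : ℕ) → DirichletCharacter ℂ f → ℝ)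
    (hW : ∀ f (h : f ∣ m) (ψ : DirichletCharacter ℂ f),
      w (DirichletCharacter.changeLevel h ψ) ≤ W f ψ) :
    ∑ χ ∈ T, w χ ≤ ∑ f ∈ J, ∑ ψ ∈ Prim f, W f ψ := by
  classical
  rw [← sum_fiberwise_of_maps_to hT]
  apply sum_le_sum
  intro f hf
  have hfm := hJ f hf
  have h2 : (T.filter (fun χ => χ.conductor = f)) ⊆
      (Prim f).image (DirichletCharacter.changeLevel hfm) := by
    intro χ hχ
    rw [mem_filter] at hχ
    obtain ⟨_, hc⟩ := hχ
    subst hc
    rw [mem_image]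
    exact ⟨χ.primitiveCharacter, by
      unfold Prim; rw [mem_filter]; exact ⟨mem_univ _, χ.primitiveCharacter_isPrimitive⟩,
      χ.changeLevel_primitiveCharacter⟩
  calc _ ≤ ∑ χ ∈ (Prim f).image (DirichletCharacter.changeLevel hfm), w χ :=
        sum_le_sum_of_subset_of_nonneg h2 fun χ _ _ => hw χ
    _ = ∑ ψ ∈ Prim f, w (DirichletCharacter.changeLevel hfm ψ) := by
        rw [sum_image]
        intro x _ y _ hxy
        exact DirichletCharacter.changeLevel_injective hfm hxy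
    _ ≤ _ := sum_le_sum fun ψ _ => hW f hfm ψ

theorem inter1 (D : ℕ) (S : ℕ → ℝ) (hS : ∀ f, 0 ≤ S f) :
    ∑ q ∈ Icc 1 D, (1 / (Nat.totient q : ℝ)) *
      ∑ f ∈ q.divisors.filter (fun f => f ≠ 1), S f ≤
      HH D * ∑ f ∈ Icc 2 D, (1 / (Nat.totient f : ℝ)) * S f := by
  have h := interchange 1 le_rfl 1 D le_rfl S hS
  simp only [one_pow, one_mul, Nat.cast_one] at h
  exact h

theorem card_le (m : ℕ) [NeZero m] (T : Finset (DirichletCharacter ℂ m)) :
    (T.card : ℝ) ≤ Nat.totient m := by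
  have h4 := DirichletCharacter.card_eq_totient_of_hasEnoughRootsOfUnity ℂ m
  rw [← h4, Nat.card_eq_fintype_card]
  exact_mod_cast (card_le_univ _)

/-- passing from a bound up to `E` -/
theorem sum_max (m : ℕ) [NeZero m] (T : Finset (DirichletCharacter ℂ m)) (J : Finset ℕ)
    (hJ : ∀ f ∈ J, f ∣ m) (hT : ∀ χ ∈ T, χ.conductor ∈ J)
    (v : DirichletCharacter ℂ m → ℝ) (E : ℝ) (hE : 0 ≤ E)
    (W : (f : ℕ) → DirichletCharacter ℂ f → ℝ) (hW0 : ∀ f ψ, 0 ≤ W f ψ)
    (hW : ∀ f (h : f ∣ m) (ψ : DirichletCharacter ℂ f),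
      v (DirichletCharacter.changeLevel h ψ) ≤ W f ψ + E) :
    (1 / (Nat.totient m : ℝ)) * ∑ χ ∈ T, v χ ≤
      (1 / (Nat.totient m : ℝ)) * (∑ f ∈ J, ∑ ψ ∈ Prim f, W f ψ) + E := by
  have h1 := step3 m T J hJ hT (fun χ => max (v χ - E) 0) (fun χ => le_max_right _ _) W (by
    intro f h ψ
    apply max_le _ (hW0 f ψ)
    have := hW f h ψ
    linarith)
  have h2 : ∑ χ ∈ T, v χ ≤ (∑ f ∈ J, ∑ ψ ∈ Prim f, W f ψ) + Nat.totient m * E := by
    calc ∑ χ ∈ T, v χ ≤ ∑ χ ∈ T, (max (v χ - E) 0 + E) := by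
          apply sum_le_sum
          intro χ _
          have := le_max_left (v χ - E) 0
          linarith
      _ = ∑ χ ∈ T, max (v χ - E) 0 + (T.card : ℝ) * E := by
          rw [sum_add_distrib, sum_const, nsmul_eq_mul]
      _ ≤ _ := add_le_add h1 (mul_le_mul_of_nonneg_right (card_le m T) hE)
  have hφ : (0:ℝ) < Nat.totient m := by
    exact_mod_cast Nat.totient_pos.mpr (Nat.pos_of_ne_zero (NeZero.ne m))
  calc _ ≤ (1 / (Nat.totient m : ℝ)) * ((∑ f ∈ J, ∑ ψ ∈ Prim f, W f ψ) + Nat.totient m * E) :=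
        mul_le_mul_of_nonneg_left h2 (by positivity)
    _ = _ := by field_simp

theorem mem_smallC (q F : ℕ) [NeZero q] (χ : DirichletCharacter ℂ q) :
    χ ∈ smallC q F ↔ χ ≠ 1 ∧ χ.conductor ≤ F := by
  let _ := Classical.decEq (DirichletCharacter ℂ q)
  unfold smallC
  rw [@Finset.mem_filter]
  simp

theorem mem_largeC (q F : ℕ) [NeZero q] (χ : DirichletCharacter ℂ q) :
    χ ∈ largeC q F ↔ χ ≠ 1 ∧ F < χ.conductor := by
  let _ := Classical.decEq (DirichletCharacter ℂ q)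
  unfold largeC
  rw [@Finset.mem_filter]
  simp

theorem SS_le (X : ℝ) (hX : 1 ≤ X) (q F : ℕ) [NeZero q] :
    SS X q F ≤ (1 / (Nat.totient q : ℝ)) *
      (∑ f ∈ q.divisors.filter (fun f => f ≠ 1),
        if f ≤ F then ∑ ψ ∈ Prim f, ‖psiLog X f ψ‖ else 0) +
      q.primeFactors.card * Real.log X ^ 2 := by
  classical
  unfold SS
  have h := sum_max q (smallC q F) ((q.divisors.filter (fun f => f ≠ 1)).filter (fun f => f ≤ F))
    (by
      intro f hf
      rw [mem_filter, mem_filter, Nat.mem_divisors] at hf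
      exact hf.1.1.1)
    (by
      intro χ hχ
      rw [mem_smallC] at hχ
      rw [mem_filter, mem_filter, Nat.mem_divisors]
      refine ⟨⟨⟨χ.conductor_dvd_level, NeZero.ne q⟩, ?_⟩, hχ.2⟩
      intro h
      exact hχ.1 (DirichletCharacter.eq_one_iff_conductor_eq_one.mpr h))
    (fun χ => ‖TL X q χ (fun n => ArithmeticFunction.vonMangoldt n)‖)
    (q.primeFactors.card * Real.log X ^ 2) (by positivity)
    (fun f ψ => ‖psiLog X f ψ‖) (fun f ψ => norm_nonneg _)
    (fun f h ψ => TL_changeLevel X hX q f (Nat.pos_of_ne_zero (NeZero.ne q)) h ψ)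
  rw [sum_filter] at h
  exact h

theorem VV_le (X : ℝ) (hX : 1 ≤ X) (q F : ℕ) (hF : 1 ≤ F) [NeZero q] :
    ∑ a ∈ (range q).filter (fun a => a.Coprime q), ‖VV X q F a‖ ^ 2 ≤
      (1 / (Nat.totient q : ℝ)) *
      (∑ f ∈ q.divisors.filter (fun f => f ≠ 1),
        if F < f then ∑ ψ ∈ Prim f, 2 * ‖psiLog X f ψ‖ ^ 2 else 0) +
      2 * (q.primeFactors.card * Real.log X ^ 2) ^ 2 := by
  classical
  have hφ : (0:ℝ) < Nat.totient q := by
    exact_mod_cast Nat.totient_pos.mpr (Nat.pos_of_ne_zero (NeZero.ne q))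
  have hP := parseval q (largeC q F)
    (fun χ => TL X q χ (fun n => ArithmeticFunction.vonMangoldt n))
  have h0 : ∑ a ∈ (range q).filter (fun a => a.Coprime q), ‖VV X q F a‖ ^ 2 =
      (1 / (Nat.totient q : ℝ)) * ∑ χ ∈ largeC q F,
        ‖TL X q χ (fun n => ArithmeticFunction.vonMangoldt n)‖ ^ 2 := by
    have h1 : ∀ a ∈ (range q).filter (fun a => a.Coprime q), ‖VV X q F a‖ ^ 2 =
        (1 / (Nat.totient q : ℝ)) ^ 2 * ‖∑ χ ∈ largeC q F,
          χ ((a : ZMod q)⁻¹) * TL X q χ (fun n => ArithmeticFunction.vonMangoldt n)‖ ^ 2 := by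
      intro a _
      unfold VV
      rw [norm_mul, mul_pow, norm_div, norm_one, Complex.norm_natCast]
    rw [sum_congr rfl h1, ← mul_sum, hP]
    field_simp
  rw [h0]
  have h := sum_max q (largeC q F) ((q.divisors.filter (fun f => f ≠ 1)).filter (fun f => F < f))
    (by
      intro f hf
      rw [mem_filter, mem_filter, Nat.mem_divisors] at hf
      exact hf.1.1.1)
    (by
      intro χ hχ
      rw [mem_largeC] at hχ
      rw [mem_filter, mem_filter, Nat.mem_divisors]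
      refine ⟨⟨⟨χ.conductor_dvd_level, NeZero.ne q⟩, ?_⟩, hχ.2⟩
      have := hχ.2
      omega)
    (fun χ => ‖TL X q χ (fun n => ArithmeticFunction.vonMangoldt n)‖ ^ 2)
    (2 * (q.primeFactors.card * Real.log X ^ 2) ^ 2) (by positivity)
    (fun f ψ => 2 * ‖psiLog X f ψ‖ ^ 2) (fun f ψ => by positivity)
    (fun f h ψ => by
      have h1 := TL_changeLevel X hX q f (Nat.pos_of_ne_zero (NeZero.ne q)) h ψ
      have h2 := norm_nonneg (TL X q (DirichletCharacter.changeLevel h ψ)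
        (fun n => ArithmeticFunction.vonMangoldt n))
      have h3 := pow_le_pow_left₀ h2 h1 2
      refine h3.trans ?_
      nlinarith [sq_nonneg (‖psiLog X f ψ‖ - q.primeFactors.card * Real.log X ^ 2)])
  rw [sum_filter] at h
  exact h

end InterC

open InterC in
theorem small_sum (X : ℝ) (hX : 1 ≤ X) (F D : ℕ) :
    ∑ q ∈ Icc 1 D, (if h : q = 0 then 0 else haveI : NeZero q := ⟨h⟩; SS X q F) ≤
      HH D * (∑ f ∈ Icc 2 F, (1 / (Nat.totient f : ℝ)) * ∑ ψ ∈ Prim f, ‖psiLog X f ψ‖) +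
        ∑ q ∈ Icc 1 D, q.primeFactors.card * Real.log X ^ 2 := by
  have h1 : ∀ q ∈ Icc 1 D, (if h : q = 0 then 0 else haveI : NeZero q := ⟨h⟩; SS X q F) ≤
      (1 / (Nat.totient q : ℝ)) *
      (∑ f ∈ q.divisors.filter (fun f => f ≠ 1),
        if f ≤ F then ∑ ψ ∈ Prim f, ‖psiLog X f ψ‖ else 0) +
      q.primeFactors.card * Real.log X ^ 2 := by
    intro q hq
    rw [mem_Icc] at hq
    have hq0 : q ≠ 0 := by omega
    rw [dif_neg hq0]
    have : NeZero q := ⟨hq0⟩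
    exact SS_le X hX q F
  refine (sum_le_sum h1).trans ?_
  rw [sum_add_distrib]
  apply add_le_add_left
  have hnn : ∀ f : ℕ, 0 ≤ ∑ ψ ∈ Prim f, ‖psiLog X f ψ‖ := fun f =>
    sum_nonneg fun _ _ => norm_nonneg _
  refine (inter1 D (fun f => if f ≤ F then ∑ ψ ∈ Prim f, ‖psiLog X f ψ‖ else 0)
    (fun f => by
      split_ifs
      · exact hnn f
      · exact le_rfl)).trans ?_
  apply mul_le_mul_of_nonneg_left
  · have h2 : ∀ f ∈ Icc 2 D, (1 / (Nat.totient f : ℝ)) *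
        (if f ≤ F then ∑ ψ ∈ Prim f, ‖psiLog X f ψ‖ else 0) =
        if f ≤ F then (1 / (Nat.totient f : ℝ)) * ∑ ψ ∈ Prim f, ‖psiLog X f ψ‖ else 0 := by
      intro f _
      split_ifs <;> simp
    rw [sum_congr rfl h2, ← sum_filter]
    apply sum_le_sum_of_subset_of_nonneg
    · intro f hf
      rw [mem_filter, mem_Icc] at hf
      rw [mem_Icc]
      omega
    · intro f _ _
      exact mul_nonneg (by positivity) (hnn f)
  · unfold HH
    exact sum_nonneg fun _ _ => by positivity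

open InterC in
theorem large_sum (X : ℝ) (hX : 1 ≤ X) (F D : ℕ) (hF : 1 ≤ F) :
    ∑ q ∈ Icc 1 D, (if h : q = 0 then 0 else haveI : NeZero q := ⟨h⟩;
      ∑ a ∈ (range q).filter (fun a => a.Coprime q), ‖VV X q F a‖ ^ 2) ≤
      2 * HH D * MM X F D +
        2 * ∑ q ∈ Icc 1 D, (q.primeFactors.card * Real.log X ^ 2) ^ 2 := by
  have h1 : ∀ q ∈ Icc 1 D, (if h : q = 0 then 0 else haveI : NeZero q := ⟨h⟩;
      ∑ a ∈ (range q).filter (fun a => a.Coprime q), ‖VV X q F a‖ ^ 2) ≤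
      (1 / (Nat.totient q : ℝ)) *
      (∑ f ∈ q.divisors.filter (fun f => f ≠ 1),
        if F < f then ∑ ψ ∈ Prim f, 2 * ‖psiLog X f ψ‖ ^ 2 else 0) +
      2 * (q.primeFactors.card * Real.log X ^ 2) ^ 2 := by
    intro q hq
    rw [mem_Icc] at hq
    have hq0 : q ≠ 0 := by omega
    rw [dif_neg hq0]
    have : NeZero q := ⟨hq0⟩
    exact VV_le X hX q F hF
  refine (sum_le_sum h1).trans ?_
  rw [sum_add_distrib, ← mul_sum (Icc 1 D) _ (2:ℝ)]
  apply add_le_add_left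
  have hnn : ∀ f : ℕ, 0 ≤ ∑ ψ ∈ Prim f, 2 * ‖psiLog X f ψ‖ ^ 2 := fun f =>
    sum_nonneg fun _ _ => by positivity
  refine (inter1 D (fun f => if F < f then ∑ ψ ∈ Prim f, 2 * ‖psiLog X f ψ‖ ^ 2 else 0)
    (fun f => by
      split_ifs
      · exact hnn f
      · exact le_rfl)).trans ?_
  have hH : 0 ≤ HH D := by
    unfold HH
    exact sum_nonneg fun _ _ => by positivity
  rw [show 2 * HH D * MM X F D = HH D * (2 * MM X F D) by ring]
  apply mul_le_mul_of_nonneg_left _ hH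
  have h2 : ∀ f ∈ Icc 2 D, (1 / (Nat.totient f : ℝ)) *
      (if F < f then ∑ ψ ∈ Prim f, 2 * ‖psiLog X f ψ‖ ^ 2 else 0) =
      if F < f then 2 * ((1 / (Nat.totient f : ℝ)) * ∑ ψ ∈ Prim f, ‖psiLog X f ψ‖ ^ 2)
        else 0 := by
    intro f _
    split_ifs
    · rw [← mul_sum]; ring
    · simp
  rw [sum_congr rfl h2, ← sum_filter, ← mul_sum]
  apply mul_le_mul_of_nonneg_left _ (by norm_num)
  unfold MM
  apply sum_le_sum_of_subset_of_nonneg
  · intro f hf
    rw [mem_filter, mem_Icc] at hf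
    rw [mem_Ioc]
    omega
  · intro f _ _
    positivity

end H343E
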