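import Pool.Agent.H43.G.R_seed8.H343R2.EH.Defs
import Pool.Agent.H43.G.R_seed8.Helper112.MultLS

open Finset

/-!
Second moment over large conductors, from the multiplicative large sieve
and partial summation.
-/

namespace H343E

open Pool.Agent.H410R2 Pool.Agent.H398R2.BV

namespace Second

/-- `(f/φ(f)) ∑_{ψ primitive} |psiLog|²` -/
noncomputable def sf (X : ℝ) (f : ℕ) : ℝ :=
  ((f : ℝ) / (Nat.totient f : ℝ)) * ∑ ψ ∈ Prim f, ‖psiLog X f ψ‖ ^ 2

theorem sf_nonneg (X : ℝ) (f : ℕ) : 0 ≤ sf X f := by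
  unfold sf
  positivity

noncomputable def TT (X : ℝ) (k : ℕ) : ℝ := ∑ f ∈ Icc 1 k, sf X f

theorem TT_succ (X : ℝ) (k : ℕ) : TT X (k + 1) = TT X k + sf X (k + 1) := by
  unfold TT
  rw [Finset.sum_Icc_succ_top (by omega)]

theorem W_le (X : ℝ) (hX : 1 ≤ X) :
    ∑ n ∈ Icc 1 ⌊X⌋₊, ‖((ArithmeticFunction.vonMangoldt n : ℝ) : ℂ) *
      ((Real.log (X / n) : ℝ) : ℂ)‖ ^ 2 ≤ X * Real.log X ^ 4 := by
  have hL : 0 ≤ Real.log X := Real.log_nonneg hX
  have h1 : ∀ n ∈ Icc 1 ⌊X⌋₊, ‖((ArithmeticFunction.vonMangoldt n : ℝ) : ℂ) *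
      ((Real.log (X / n) : ℝ) : ℂ)‖ ^ 2 ≤ Real.log X ^ 4 := by
    intro n hn
    rw [mem_Icc] at hn
    have hn1 : (1 : ℝ) ≤ n := by exact_mod_cast hn.1
    have hn2 : (n : ℝ) ≤ X := (Nat.le_floor_iff (by linarith)).1 hn.2
    have ha : 0 ≤ ArithmeticFunction.vonMangoldt n := ArithmeticFunction.vonMangoldt_nonneg
    have hb : ArithmeticFunction.vonMangoldt n ≤ Real.log X :=
      le_trans ArithmeticFunction.vonMangoldt_le_log
        (Real.log_le_log (by linarith) hn2)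
    have hc : 0 ≤ Real.log (X / n) := Real.log_nonneg (by rw [le_div_iff₀ (by linarith)]; linarith)
    have hd : Real.log (X / n) ≤ Real.log X :=
      Real.log_le_log (by positivity) (div_le_self (by linarith) hn1)
    have he : ‖((ArithmeticFunction.vonMangoldt n : ℝ) : ℂ) *
      ((Real.log (X / n) : ℝ) : ℂ)‖ = ArithmeticFunction.vonMangoldt n * Real.log (X / n) := by
      rw [norm_mul, Complex.norm_real, Complex.norm_real, Real.norm_of_nonneg ha,
        Real.norm_of_nonneg hc]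
    rw [he]
    have hf : ArithmeticFunction.vonMangoldt n * Real.log (X / n) ≤ Real.log X * Real.log X :=
      mul_le_mul hb hd hc hL
    calc (ArithmeticFunction.vonMangoldt n * Real.log (X / n)) ^ 2
        ≤ (Real.log X * Real.log X) ^ 2 :=
          pow_le_pow_left₀ (mul_nonneg ha hc) hf 2
      _ = Real.log X ^ 4 := by ring
  refine le_trans (sum_le_sum h1) ?_
  rw [sum_const, Nat.card_Icc, nsmul_eq_mul]
  have h2 : ((⌊X⌋₊ + 1 - 1 : ℕ) : ℝ) ≤ X := by
    simpa using Nat.floor_le (by linarith : (0:ℝ) ≤ X)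
  exact mul_le_mul_of_nonneg_right h2 (by positivity)

theorem TT_le (X : ℝ) (hX : 1 ≤ X) (k : ℕ) :
    TT X k ≤ 6 * (X + (k : ℝ) ^ 2) * (X * Real.log X ^ 4) := by
  have h := Pool.Agent.Helper112.mult_large_sieve ⌊X⌋₊ k
    (fun n => ((ArithmeticFunction.vonMangoldt n : ℝ) : ℂ) * ((Real.log (X / n) : ℝ) : ℂ))
  refine le_trans (le_of_eq ?_) (le_trans h ?_)
  · unfold TT sf
    refine sum_congr rfl fun f _ => ?_
    congr 1
    unfold Prim
    refine sum_congr (by congr) fun χ _ => ?_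
    unfold psiLog
    congr 2
    refine sum_congr rfl fun n _ => ?_
    ring
  have hW := W_le X hX
  have hN : ((⌊X⌋₊ : ℕ) : ℝ) ≤ X := Nat.floor_le (by linarith)
  have hL : 0 ≤ Real.log X := Real.log_nonneg hX
  refine mul_le_mul ?_ hW (sum_nonneg fun _ _ => by positivity) (by positivity)
  linarith

theorem main_ind (X : ℝ) (hX : 1 ≤ X) (F : ℕ) (D : ℕ) (hD : F ≤ D) :
    ∑ f ∈ Ioc F D, sf X f / f ≤
      6 * (X * Real.log X ^ 4) * (X * (1 / ((F : ℝ) + 1) - 1 / ((D : ℝ) + 1)) + (D - F)) +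
        TT X D / ((D : ℝ) + 1) := by
  have hL : 0 ≤ Real.log X := Real.log_nonneg hX
  induction D, hD using Nat.le_induction with
  | base =>
    have : 0 ≤ TT X F := sum_nonneg fun f _ => sf_nonneg X f
    simp only [Ioc_self, sum_empty, sub_self, mul_zero, add_zero, zero_add]
    positivity
  | succ D hD ih =>
    rw [← Finset.insert_Ioc_right_eq_Ioc_add_one (by omega), sum_insert (by simp)]
    have h1 := TT_le X hX (D + 1)
    rw [TT_succ] at h1 ⊢
    set w : ℝ := X * Real.log X ^ 4 with hw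
    have hw0 : 0 ≤ w := by positivity
    push_cast at h1 ⊢
    have hd : (0 : ℝ) < (D : ℝ) + 1 := by positivity
    have hd2 : (0 : ℝ) < (D : ℝ) + 1 + 1 := by positivity
    have e1 : (TT X D + sf X (D + 1)) / ((D : ℝ) + 1) =
        (TT X D + sf X (D + 1)) / ((D : ℝ) + 1 + 1) +
          (TT X D + sf X (D + 1)) / (((D : ℝ) + 1) * ((D : ℝ) + 1 + 1)) := by
      field_simp
    have e2 : (TT X D + sf X (D + 1)) / (((D : ℝ) + 1) * ((D : ℝ) + 1 + 1)) ≤
        6 * w * (X * (1 / ((D : ℝ) + 1) - 1 / ((D : ℝ) + 1 + 1)) + 1) := by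
      rw [div_le_iff₀ (by positivity)]
      refine le_trans h1 ?_
      have e3 : 6 * w * (X * (1 / ((D : ℝ) + 1) - 1 / ((D : ℝ) + 1 + 1)) + 1) *
          (((D : ℝ) + 1) * ((D : ℝ) + 1 + 1)) =
          6 * w * (X + ((D : ℝ) + 1) * ((D : ℝ) + 1 + 1)) := by
        field_simp
        ring
      rw [e3]
      have e4 : ((D : ℝ) + 1) ^ 2 ≤ ((D : ℝ) + 1) * ((D : ℝ) + 1 + 1) := by nlinarith
      nlinarith [mul_le_mul_of_nonneg_left e4 hw0]
    have e5 : sf X (D + 1) / ((D : ℝ) + 1) + TT X D / ((D : ℝ) + 1) =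
        (TT X D + sf X (D + 1)) / ((D : ℝ) + 1) := by ring
    have e6 : 6 * w * (X * (1 / ((F : ℝ) + 1) - 1 / ((D : ℝ) + 1)) + ((D : ℝ) - F)) +
        6 * w * (X * (1 / ((D : ℝ) + 1) - 1 / ((D : ℝ) + 1 + 1)) + 1) =
        6 * w * (X * (1 / ((F : ℝ) + 1) - 1 / ((D : ℝ) + 1 + 1)) + ((D : ℝ) + 1 - F)) := by ring
    linarith

end Second

open Second in
theorem second_moment (X : ℝ) (hX : 1 ≤ X) (F D : ℕ) (hF : 1 ≤ F) :
    MM X F D ≤ 24 * (X / F + D) * (X * Real.log X ^ 4) := by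
  have hL : 0 ≤ Real.log X := Real.log_nonneg hX
  have hF1 : (1 : ℝ) ≤ F := by exact_mod_cast hF
  have hw0 : 0 ≤ X * Real.log X ^ 4 := by positivity
  rcases Nat.lt_or_ge D F with h | h
  · have : MM X F D = 0 := by
      unfold MM
      rw [Finset.Ioc_eq_empty (by omega), sum_empty]
    rw [this]
    positivity
  · have h0 : MM X F D = ∑ f ∈ Ioc F D, sf X f / f := by
      unfold MM sf
      refine sum_congr rfl fun f hf => ?_
      rw [mem_Ioc] at hf
      have hf0 : (f : ℝ) ≠ 0 := by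
        have : f ≠ 0 := by omega
        exact_mod_cast this
      field_simp
    rw [h0]
    refine le_trans (main_ind X hX F D h) ?_
    have h1 := TT_le X hX D
    set w : ℝ := X * Real.log X ^ 4 with hw
    have hFD : (F : ℝ) ≤ D := by exact_mod_cast h
    have h2 : TT X D / ((D : ℝ) + 1) ≤ 6 * w * (X / F + D) := by
      rw [div_le_iff₀ (by positivity)]
      refine le_trans h1 ?_
      have h3 : X ≤ X / F * ((D : ℝ) + 1) := by
        rw [div_mul_eq_mul_div, le_div_iff₀ (by linarith)]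
        have : (F : ℝ) ≤ D + 1 := by linarith
        exact mul_le_mul_of_nonneg_left this (by linarith)
      have h4 : (D : ℝ) ^ 2 ≤ D * ((D : ℝ) + 1) := by nlinarith [Nat.cast_nonneg (α := ℝ) D]
      have h5 : X + (D : ℝ) ^ 2 ≤ (X / F + D) * ((D : ℝ) + 1) := by
        have : (X / F + D) * ((D : ℝ) + 1) = X / F * ((D : ℝ) + 1) + D * ((D : ℝ) + 1) := by ring
        linarith
      calc 6 * (X + (D : ℝ) ^ 2) * w = 6 * w * (X + (D : ℝ) ^ 2) := by ring
        _ ≤ 6 * w * ((X / F + D) * ((D : ℝ) + 1)) :=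
            mul_le_mul_of_nonneg_left h5 (by positivity)
        _ = 6 * w * (X / F + D) * ((D : ℝ) + 1) := by ring
    have h6 : X * (1 / ((F : ℝ) + 1) - 1 / ((D : ℝ) + 1)) + ((D : ℝ) - F) ≤ X / F + D := by
      have a1 : 1 / ((F : ℝ) + 1) ≤ 1 / F := one_div_le_one_div_of_le (by linarith) (by linarith)
      have a2 : 0 ≤ 1 / ((D : ℝ) + 1) := by positivity
      have a3 : X * (1 / ((F : ℝ) + 1) - 1 / ((D : ℝ) + 1)) ≤ X * (1 / F) :=
        mul_le_mul_of_nonneg_left (by linarith) (by linarith)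
      have a4 : X * (1 / (F : ℝ)) = X / F := by ring
      linarith
    have h7 : 6 * w * (X * (1 / ((F : ℝ) + 1) - 1 / ((D : ℝ) + 1)) + ((D : ℝ) - F)) ≤
        6 * w * (X / F + D) := mul_le_mul_of_nonneg_left h6 (by positivity)
    have h8 : 0 ≤ w * (X / F + D) := by positivity
    linarith

end H343E
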