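import Pool.Agent.H43.G.R_seed8.H343R2.EH.BVLog
import Pool.Agent.H43.G.R_seed8.H343R2.EH.Pointwise
import Pool.Agent.H43.G.R_seed8.H343R2.EH.Second
import Pool.Agent.H43.G.R_seed8.H343R2.EH.Inter

open Finset Filter Topology

namespace H343E

open Pool.Agent.H410R2 Pool.Agent.H398R2.BV

namespace Sm

theorem skeleton (A : ℝ) (hA : 0 ≤ A) (D : ℕ) (L : ℕ → Finset ℕ) (hL : Fam A L)
    (s w : ℕ → ℝ) (v E : ℕ → ℕ → ℝ) (S0 T0 W0 : ℝ) (hs : ∀ q, 0 ≤ s q) (hw : ∀ q, 0 ≤ w q)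
    (h1 : ∑ q ∈ Icc 1 D, s q ≤ S0)
    (h2 : ∑ q ∈ Icc 1 D, ∑ a ∈ (range q).filter (fun a => a.Coprime q), v q a ^ 2 ≤ T0)
    (h3 : ∑ q ∈ Icc 1 D, w q ≤ W0)
    (hE : ∀ q ∈ Icc 1 D, ∀ a ∈ L q, E q a ≤ s q + v q a + w q) :
    ∑ q ∈ Icc 1 D, ∑ a ∈ L q, E q a ≤ A * S0 + Real.sqrt (A * D * T0) + A * W0 := by
  have e1 : ∑ q ∈ Icc 1 D, ∑ a ∈ L q, E q a ≤
      ∑ q ∈ Icc 1 D, ((L q).card : ℝ) * s q + ∑ q ∈ Icc 1 D, ∑ a ∈ L q, v q a +
        ∑ q ∈ Icc 1 D, ((L q).card : ℝ) * w q := by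
    rw [← sum_add_distrib, ← sum_add_distrib]
    apply sum_le_sum
    intro q hq
    refine (sum_le_sum (hE q hq)).trans (le_of_eq ?_)
    rw [sum_add_distrib, sum_add_distrib, sum_const, sum_const, nsmul_eq_mul, nsmul_eq_mul]
  have e2 : ∑ q ∈ Icc 1 D, ((L q).card : ℝ) * s q ≤ A * S0 := by
    calc ∑ q ∈ Icc 1 D, ((L q).card : ℝ) * s q ≤ ∑ q ∈ Icc 1 D, A * s q :=
          sum_le_sum fun q _ => mul_le_mul_of_nonneg_right (hL.card q) (hs q)
      _ = A * ∑ q ∈ Icc 1 D, s q := by rw [mul_sum]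
      _ ≤ _ := mul_le_mul_of_nonneg_left h1 hA
  have e3 : ∑ q ∈ Icc 1 D, ((L q).card : ℝ) * w q ≤ A * W0 := by
    calc ∑ q ∈ Icc 1 D, ((L q).card : ℝ) * w q ≤ ∑ q ∈ Icc 1 D, A * w q :=
          sum_le_sum fun q _ => mul_le_mul_of_nonneg_right (hL.card q) (hw q)
      _ = A * ∑ q ∈ Icc 1 D, w q := by rw [mul_sum]
      _ ≤ _ := mul_le_mul_of_nonneg_left h3 hA
  have e4 : ∑ q ∈ Icc 1 D, ∑ a ∈ L q, v q a ≤ Real.sqrt (A * D * T0) := by
    apply Real.le_sqrt_of_sq_le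
    rw [sum_sigma']
    refine (sq_sum_le_card_mul_sum_sq (s := (Icc 1 D).sigma L)
      (f := fun x : (_ : ℕ) × ℕ => v x.1 x.2)).trans ?_
    have c1 : (((Icc 1 D).sigma L).card : ℝ) ≤ A * D := by
      rw [card_sigma]
      push_cast
      calc ∑ q ∈ Icc 1 D, ((L q).card : ℝ) ≤ ∑ q ∈ Icc 1 D, A := sum_le_sum fun q _ => hL.card q
        _ = A * D := by rw [sum_const, Nat.card_Icc, nsmul_eq_mul]; push_cast; ring
    have c2 : ∑ x ∈ (Icc 1 D).sigma L, v x.1 x.2 ^ 2 ≤ T0 := by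
      rw [sum_sigma]
      refine le_trans (sum_le_sum fun q _ => ?_) h2
      apply sum_le_sum_of_subset_of_nonneg
      · intro a ha
        rw [mem_filter, mem_range]
        exact hL.cop q a ha
      · intro a _ _
        positivity
    have c3 : 0 ≤ ∑ x ∈ (Icc 1 D).sigma L, v x.1 x.2 ^ 2 := sum_nonneg fun _ _ => by positivity
    exact mul_le_mul c1 c2 c3 (by positivity)
  linarith

theorem HH_le (k : ℕ) (hk : ∀ Q : ℕ, ∑ e ∈ Icc 1 Q, (1:ℝ) ^ e.primeFactors.card /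
    (Nat.totient e : ℝ) ≤ (1 + Real.log Q) ^ (2 ^ k)) (D : ℕ) (L : ℝ) (h : Real.log D ≤ L)
    (hL : 1 ≤ L) : HH D ≤ (2 * L) ^ (2 ^ k) := by
  have h1 := hk D
  simp only [one_pow] at h1
  unfold HH
  refine h1.trans ?_
  have := Real.log_natCast_nonneg D
  gcongr
  linarith

theorem omega_sum (X : ℝ) (hX : 1 ≤ X) (D : ℕ) (hD : (D : ℝ) ≤ X) :
    ∑ q ∈ Icc 1 D, (q.primeFactors.card : ℝ) * Real.log X ^ 2 ≤ D * (2 * Real.log X ^ 3) ∧
    ∑ q ∈ Icc 1 D, ((q.primeFactors.card : ℝ) * Real.log X ^ 2) ^ 2 ≤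
      D * (2 * Real.log X ^ 3) ^ 2 := by
  have hL : 0 ≤ Real.log X := Real.log_nonneg hX
  have h1 : ∀ q ∈ Icc 1 D, (q.primeFactors.card : ℝ) * Real.log X ^ 2 ≤ 2 * Real.log X ^ 3 := by
    intro q hq
    rw [mem_Icc] at hq
    have h2 := omega_le_log q hq.1
    have h3 : Real.log q ≤ Real.log X := by
      apply log_natCast_le _ X hX
      have : (q:ℝ) ≤ D := by exact_mod_cast hq.2
      linarith
    calc (q.primeFactors.card : ℝ) * Real.log X ^ 2 ≤ (2 * Real.log X) * Real.log X ^ 2 := by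
          gcongr
          linarith
      _ = _ := by ring
  constructor
  · calc _ ≤ ∑ q ∈ Icc 1 D, 2 * Real.log X ^ 3 := sum_le_sum h1
      _ = _ := by rw [sum_const, Nat.card_Icc, nsmul_eq_mul]; simp
  · calc _ ≤ ∑ q ∈ Icc 1 D, (2 * Real.log X ^ 3) ^ 2 := by
          apply sum_le_sum
          intro q hq
          exact pow_le_pow_left₀ (by positivity) (h1 q hq) 2
      _ = _ := by rw [sum_const, Nat.card_Icc, nsmul_eq_mul]; simp

/-- numerics for the square root term -/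
theorem num (A X D L F : ℝ) (K B1 B2 U : ℕ) (hA : 1 ≤ A) (hX : 1 ≤ X) (hL : 1 ≤ L) (hD : 0 ≤ D)
    (hB2 : B2 = K + 5 + B1 + 2 * U) (hF : Real.sqrt X ≤ 2 * L ^ B1 * F) (hF0 : 0 < F)
    (hD2 : D ^ 2 ≤ A * X / L ^ (2 * B2)) (hLbig : 10000 * 2 ^ K ≤ L) :
    A * D * (2 * (2 * L) ^ K * (24 * (X / F + D) * (X * L ^ 4)) + 2 * (D * (2 * L ^ 3) ^ 2)) ≤
      ((1 / 4) * (A * X / L ^ U)) ^ 2 := by
  have hL0 : 0 < L := by linarith
  have hsX : 0 < Real.sqrt X := Real.sqrt_pos.mpr (by linarith)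
  have hss : Real.sqrt X * Real.sqrt X = X := Real.mul_self_sqrt (by linarith)
  have hAX : 0 < A * X := by nlinarith
  -- D √X ≤ A X / L^B2
  have h1 : D * Real.sqrt X ≤ A * X / L ^ B2 := by
    apply abs_le_of_sq_le_sq' _ (by positivity) |>.2
    rw [mul_pow, div_pow, ← pow_mul, mul_comm B2 2, pow_two (Real.sqrt X), hss]
    calc D ^ 2 * X ≤ (A * X / L ^ (2 * B2)) * X := by gcongr
      _ = (A * X * X) / L ^ (2 * B2) := by ring
      _ ≤ (A * X) ^ 2 / L ^ (2 * B2) := by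
          gcongr
          nlinarith [mul_nonneg (by linarith : (0:ℝ) ≤ A - 1) (mul_self_nonneg X)]
  have h2 : X / F ≤ 2 * L ^ B1 * Real.sqrt X := by
    rw [div_le_iff₀ hF0]
    calc X = Real.sqrt X * Real.sqrt X := hss.symm
      _ ≤ Real.sqrt X * (2 * L ^ B1 * F) := by gcongr
      _ = _ := by ring
  have hP : L ^ (2 * B2) = L ^ B2 * L ^ B2 := by rw [← pow_add]; congr 1; ring
  have hB : 1 ≤ L ^ B2 := one_le_pow₀ hL
  have hD2' : D ^ 2 ≤ A * X / L ^ B2 := by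
    refine hD2.trans ?_
    rw [hP]
    apply div_le_div_of_nonneg_left hAX.le (by positivity)
    exact le_mul_of_one_le_left (by positivity) hB
  have hB1 : 1 ≤ L ^ B1 := one_le_pow₀ hL
  have h3 : D * (X / F + D) ≤ 3 * L ^ B1 * (A * X / L ^ B2) := by
    calc D * (X / F + D) ≤ D * (2 * L ^ B1 * Real.sqrt X + D) := by gcongr
      _ = 2 * L ^ B1 * (D * Real.sqrt X) + 1 * D ^ 2 := by ring
      _ ≤ 2 * L ^ B1 * (A * X / L ^ B2) + L ^ B1 * (A * X / L ^ B2) := by gcongr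
      _ = _ := by ring
  have h4 : A * D * (2 * (2 * L) ^ K * (24 * (X / F + D) * (X * L ^ 4)) +
      2 * (D * (2 * L ^ 3) ^ 2)) =
      48 * 2 ^ K * L ^ (K + 4) * (A * X) * (D * (X / F + D)) + 8 * A * L ^ 6 * D ^ 2 := by
    rw [mul_pow, pow_add]; ring
  rw [h4]
  have h5 : 48 * 2 ^ K * L ^ (K + 4) * (A * X) * (D * (X / F + D)) ≤
      144 * 2 ^ K * L ^ (K + 4 + B1) * (A * X) ^ 2 / L ^ B2 := by
    calc _ ≤ 48 * 2 ^ K * L ^ (K + 4) * (A * X) * (3 * L ^ B1 * (A * X / L ^ B2)) := by gcongr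
      _ = _ := by rw [pow_add]; ring
  have h6 : 8 * A * L ^ 6 * D ^ 2 ≤ 8 * L ^ (K + 4 + B1) * (A * X) ^ 2 / L ^ B2 := by
    have h7 : 8 * A * L ^ 6 * D ^ 2 ≤ 8 * A * L ^ 6 * (A * X / L ^ (2 * B2)) := by gcongr
    refine h7.trans ?_
    have h8 : L ^ 6 ≤ L ^ (K + 4 + B1) * L ^ B2 := by
      rw [← pow_add]
      apply pow_le_pow_right₀ hL
      omega
    calc 8 * A * L ^ 6 * (A * X / L ^ (2 * B2)) ≤
        8 * (A * X) * (L ^ (K + 4 + B1) * L ^ B2) * (A * X / L ^ (2 * B2)) := by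
          gcongr
          nlinarith
      _ = _ := by rw [hP]; field_simp
  have h9 : 144 * 2 ^ K * L ^ (K + 4 + B1) * (A * X) ^ 2 / L ^ B2 +
      8 * L ^ (K + 4 + B1) * (A * X) ^ 2 / L ^ B2 ≤
      152 * 2 ^ K * L ^ (K + 4 + B1) * (A * X) ^ 2 / L ^ B2 := by
    have : (1:ℝ) ≤ 2 ^ K := one_le_pow₀ (by norm_num)
    have h10 : 8 * L ^ (K + 4 + B1) * (A * X) ^ 2 / L ^ B2 ≤
        8 * 2 ^ K * L ^ (K + 4 + B1) * (A * X) ^ 2 / L ^ B2 := by
      gcongr
      linarith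
    calc _ ≤ 144 * 2 ^ K * L ^ (K + 4 + B1) * (A * X) ^ 2 / L ^ B2 +
        8 * 2 ^ K * L ^ (K + 4 + B1) * (A * X) ^ 2 / L ^ B2 := by linarith
      _ = _ := by ring
  have h11 : 152 * 2 ^ K * L ^ (K + 4 + B1) * (A * X) ^ 2 / L ^ B2 ≤
      ((1 / 4) * (A * X / L ^ U)) ^ 2 := by
    have hBe : L ^ B2 = L ^ (K + 4 + B1) * L * (L ^ U * L ^ U) := by
      rw [hB2, ← pow_succ, ← pow_add, ← pow_add]
      congr 1; ring
    rw [hBe]
    have hLU : 0 < L ^ U := by positivity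
    have hLK : 0 < L ^ (K + 4 + B1) := by positivity
    have e : 152 * 2 ^ K * L ^ (K + 4 + B1) * (A * X) ^ 2 /
        (L ^ (K + 4 + B1) * L * (L ^ U * L ^ U)) = (152 * 2 ^ K / L) * (A * X / L ^ U) ^ 2 := by
      field_simp
    rw [e, mul_pow]
    apply mul_le_mul_of_nonneg_right _ (by positivity)
    rw [div_le_iff₀ hL0]
    have : (0:ℝ) < 2 ^ K := by positivity
    linarith
  linarith

end Sm

open Sm in
theorem smoothed (U : ℕ) : ∃ (B : ℕ) (X0 : ℝ), ∀ X : ℝ, X0 ≤ X → ∀ A : ℝ, 1 ≤ A → ∀ D : ℕ,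
    (D : ℝ) ≤ X / Real.log X ^ B → (D : ℝ) ^ 2 ≤ A * X / Real.log X ^ B →
    ∀ L : ℕ → Finset ℕ, Fam A L →
    ∑ q ∈ Icc 1 D, ∑ a ∈ L q, |psiLogAP X q a - psiLog1 X / (Nat.totient q : ℝ)| ≤
      A * X / Real.log X ^ U := by
  obtain ⟨k, hk⟩ := sum_pow_omega_div_totient 1 le_rfl
  set K := 2 ^ k with hK
  obtain ⟨B1, X1, hbv⟩ := bv_log (U + K + 1)
  set B2 := K + 5 + B1 + 2 * U with hB2
  have hlog : Tendsto Real.log atTop atTop := Real.tendsto_log_atTop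
  have ev : ∀ᶠ X : ℝ in atTop, ∀ A : ℝ, 1 ≤ A → ∀ D : ℕ,
    (D : ℝ) ≤ X / Real.log X ^ (2 * B2) → (D : ℝ) ^ 2 ≤ A * X / Real.log X ^ (2 * B2) →
    ∀ L : ℕ → Finset ℕ, Fam A L →
    ∑ q ∈ Icc 1 D, ∑ a ∈ L q, |psiLogAP X q a - psiLog1 X / (Nat.totient q : ℝ)| ≤
      A * X / Real.log X ^ U := by
    filter_upwards [eventually_ge_atTop X1, eventually_ge_atTop (4:ℝ),
      hlog.eventually_ge_atTop (10000 * 2 ^ K), ev_log 1 B1 (1 / 2) (by norm_num)]
      with X h1 h2 h3 h4 A hA D hD1 hD2 fam hfam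
    have hX0 : 0 < X := by linarith
    have hX1 : 1 ≤ X := by linarith
    set L := Real.log X with hL
    have h2K : (1:ℝ) ≤ 2 ^ K := one_le_pow₀ (by norm_num)
    have hL10 : 10000 ≤ L := by linarith
    have hL0 : 0 < L := by linarith
    have hL1 : 1 ≤ L := by linarith
    have hLB1 : 0 < L ^ B1 := by positivity
    -- F
    set F := ⌊Real.sqrt X / L ^ B1⌋₊ with hF
    have hq : 1 ≤ Real.sqrt X / L ^ B1 := by
      rw [le_div_iff₀ hLB1, one_mul]
      rw [Real.sqrt_eq_rpow]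
      linarith
    have hF1 : 1 ≤ F := by rw [hF, Nat.one_le_floor_iff]; exact hq
    have hF0 : (0:ℝ) < F := by exact_mod_cast hF1
    have hFle : (F:ℝ) ≤ Real.sqrt X / L ^ B1 := Nat.floor_le (by positivity)
    have hFge : Real.sqrt X ≤ 2 * L ^ B1 * F := by
      have h5 := Nat.lt_floor_add_one (Real.sqrt X / L ^ B1)
      rw [← hF] at h5
      have h6 : (1:ℝ) ≤ F := by exact_mod_cast hF1
      rw [div_lt_iff₀ hLB1] at h5
      nlinarith
    have hDX : (D:ℝ) ≤ X := by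
      refine hD1.trans ?_
      apply div_le_self hX0.le
      exact one_le_pow₀ hL1
    have hlogD : Real.log D ≤ L := log_natCast_le _ X hX1 hDX
    have hHH := HH_le k hk D L hlogD hL1
    rw [← hK] at hHH
    have hHH0 : 0 ≤ HH D := sum_nonneg fun _ _ => by positivity
    obtain ⟨ho1, ho2⟩ := omega_sum X hX1 D hDX
    rw [← hL] at ho1 ho2
    have hb := hbv X h1 F hFle
    rw [← hL] at hb
    have hb0 : 0 ≤ ∑ f ∈ Icc 2 F, (1 / (Nat.totient f : ℝ)) * ∑ ψ ∈ Prim f, ‖psiLog X f ψ‖ :=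
      sum_nonneg fun f _ => mul_nonneg (by positivity) (sum_nonneg fun _ _ => norm_nonneg _)
    have hs := small_sum X hX1 F D
    have hl := large_sum X hX1 F D hF1
    have hm := second_moment X hX1 F D hF1
    rw [← hL] at hs hl hm
    have hT : ∑ q ∈ Icc 1 D, ∑ a ∈ (range q).filter (fun a => a.Coprime q),
        (if h : q = 0 then 0 else haveI : NeZero q := ⟨h⟩; ‖VV X q F a‖) ^ 2 ≤
        2 * (2 * L) ^ K * (24 * (X / F + D) * (X * L ^ 4)) + 2 * (D * (2 * L ^ 3) ^ 2) := by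
      have e : ∑ q ∈ Icc 1 D, ∑ a ∈ (range q).filter (fun a => a.Coprime q),
          (if h : q = 0 then 0 else haveI : NeZero q := ⟨h⟩; ‖VV X q F a‖) ^ 2 =
          ∑ q ∈ Icc 1 D, (if h : q = 0 then 0 else haveI : NeZero q := ⟨h⟩;
          ∑ a ∈ (range q).filter (fun a => a.Coprime q), ‖VV X q F a‖ ^ 2) := by
        apply sum_congr rfl
        intro q hq
        rw [mem_Icc] at hq
        have hq0 : q ≠ 0 := by omega
        rw [dif_neg hq0]
        apply sum_congr rfl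
        intro a _
        rw [dif_neg hq0]
      rw [e]
      refine hl.trans ?_
      have hMM0 : 0 ≤ MM X F D := sum_nonneg fun f _ => mul_nonneg (by positivity)
        (sum_nonneg fun _ _ => by positivity)
      gcongr
    have hS : ∑ q ∈ Icc 1 D, (if h : q = 0 then 0 else haveI : NeZero q := ⟨h⟩; SS X q F) ≤
        (2 * L) ^ K * (X / L ^ (U + K + 1)) + D * (2 * L ^ 3) := by
      refine hs.trans ?_
      gcongr
    have hmain := skeleton A (by linarith) D fam hfam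
      (fun q => if h : q = 0 then 0 else haveI : NeZero q := ⟨h⟩; SS X q F)
      (fun q => (q.primeFactors.card : ℝ) * L ^ 2)
      (fun q a => if h : q = 0 then 0 else haveI : NeZero q := ⟨h⟩; ‖VV X q F a‖)
      (fun q a => |psiLogAP X q a - psiLog1 X / (Nat.totient q : ℝ)|)
      _ _ _ (by
        intro q
        split_ifs with h
        · exact le_rfl
        · unfold SS
          exact mul_nonneg (by positivity) (sum_nonneg fun _ _ => norm_nonneg _))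
      (fun q => by positivity) hS hT ho1 (by
        intro q hq a ha
        rw [mem_Icc] at hq
        have hq0 : q ≠ 0 := by omega
        have : NeZero q := ⟨hq0⟩
        rw [dif_neg hq0, dif_neg hq0]
        exact pointwise X hX1 q F a (hfam.cop q a ha).2)
    refine hmain.trans ?_
    have hnum := num A X D L F K B1 B2 U hA hX1 hL1 (by positivity) hB2 hFge hF0 hD2 (by linarith)
    have hsq : Real.sqrt (A * D * (2 * (2 * L) ^ K * (24 * (X / F + D) * (X * L ^ 4)) +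
        2 * (D * (2 * L ^ 3) ^ 2))) ≤ (1 / 4) * (A * X / L ^ U) :=
      Real.sqrt_le_iff.mpr ⟨by positivity, hnum⟩
    have hXU : 0 < X / L ^ U := by positivity
    have e1 : (2 * L) ^ K * (X / L ^ (U + K + 1)) ≤ (1 / 4) * (X / L ^ U) := by
      calc (2 * L) ^ K * (X / L ^ (U + K + 1)) = (2 ^ K / L) * (X / L ^ U) := by
            rw [mul_pow, pow_add, pow_add, pow_one]
            field_simp
        _ ≤ (1 / 4) * (X / L ^ U) := by
            apply mul_le_mul_of_nonneg_right _ hXU.le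
            rw [div_le_iff₀ hL0]
            linarith
    have e2 : D * (2 * L ^ 3) ≤ (1 / 8) * (X / L ^ U) := by
      calc D * (2 * L ^ 3) ≤ (X / L ^ (2 * B2)) * (2 * L ^ 3) := by gcongr
        _ ≤ (X / L ^ (U + 4)) * (2 * L ^ 3) := by
            have hle : U + 4 ≤ 2 * B2 := by
              rw [hB2]
              clear_value K
              omega
            gcongr
        _ = (2 / L) * (X / L ^ U) := by
            rw [pow_add]
            field_simp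
        _ ≤ (1 / 8) * (X / L ^ U) := by
            apply mul_le_mul_of_nonneg_right _ hXU.le
            rw [div_le_iff₀ hL0]
            linarith
    have hA0 : 0 ≤ A := by linarith
    have e3 : A * ((2 * L) ^ K * (X / L ^ (U + K + 1)) + D * (2 * L ^ 3)) ≤
        A * ((3 / 8) * (X / L ^ U)) := by
      apply mul_le_mul_of_nonneg_left _ hA0
      linarith
    have e4 : A * (D * (2 * L ^ 3)) ≤ A * ((1 / 8) * (X / L ^ U)) :=
      mul_le_mul_of_nonneg_left e2 hA0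
    have e5 : A * X / L ^ U = A * (X / L ^ U) := by ring
    rw [e5] at hsq ⊢
    have e6 : 0 ≤ A * (X / L ^ U) := by positivity
    linarith
  rw [eventually_atTop] at ev
  obtain ⟨X0, hX0⟩ := ev
  exact ⟨2 * B2, X0, hX0⟩

end H343E
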